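import Pool.Agent.Lib.MP_13d5da_nt.Avoid
import Pool.Agent.Lib.MP_13d5da_nt.Cheb

set_option autoImplicit false

namespace Pool.Agent.Results.MP_13d5da_nt.AlmostAllModuli

open Finset Pool.Agent.Lib.MP_13d5da_nt

/-- `M n` is the least value of `max x y` over all `x, y` in `{2, ..., n - 1}` with
`x * y` congruent to `1` modulo `n`. (For `n ≥ 3` such `x, y` exist, for example `n - 1, n - 1`.) -/
noncomputable def M (n : ℕ) : ℕ :=
  sInf {m : ℕ | ∃ x y : ℕ, 2 ≤ x ∧ x < n ∧ 2 ≤ y ∧ y < n ∧ (x * y) % n = 1 ∧ m = max x y}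

theorem M_le {n x y : ℕ} (h1 : 2 ≤ x) (h2 : x < n) (h3 : 2 ≤ y) (h4 : y < n)
    (h5 : (x * y) % n = 1) : M n ≤ max x y :=
  Nat.sInf_le ⟨x, y, h1, h2, h3, h4, h5, rfl⟩

/-- sanity: for `n ≥ 3` the minimum is attained -/
theorem M_spec {n : ℕ} (hn : 3 ≤ n) :
    ∃ x y : ℕ, 2 ≤ x ∧ x < n ∧ 2 ≤ y ∧ y < n ∧ (x * y) % n = 1 ∧ M n = max x y := by
  apply Nat.sInf_mem (s := {m : ℕ | ∃ x y : ℕ, 2 ≤ x ∧ x < n ∧ 2 ≤ y ∧ y < n ∧
    (x * y) % n = 1 ∧ m = max x y})
  refine ⟨_, n - 1, n - 1, by omega, by omega, by omega, by omega, ?_, rfl⟩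
  obtain ⟨m, rfl⟩ : ∃ m, n = m + 3 := ⟨n - 3, by omega⟩
  have : (m + 3 - 1) * (m + 3 - 1) = 1 + (m + 3) * (m + 1) := by
    rw [show m + 3 - 1 = m + 2 by omega]
    ring
  rw [this, Nat.add_mul_mod_self_left]
  exact Nat.mod_eq_of_lt (by omega)

theorem M_lt {n : ℕ} (hn : 3 ≤ n) : M n < n := by
  obtain ⟨x, y, _, h2, _, h4, _, h6⟩ := M_spec hn
  rw [h6]
  exact max_lt h2 h4

/-- the classes `-1/k` modulo `x`, `1 ≤ k ≤ K` -/
def badClasses (K x : ℕ) : Finset ℕ := (range x).filter (fun b => ∃ k ∈ Icc 1 K, x ∣ 1 + k * b)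

theorem badClasses_card {K x : ℕ} (hx : x.Prime) (hK : K < x) : K ≤ (badClasses K x).card := by
  have : Fact x.Prime := ⟨hx⟩
  have h0 : ∀ k ∈ Icc 1 K, x ∣ 1 + k * (-(k : ZMod x)⁻¹).val := by
    intro k hk
    rw [mem_Icc] at hk
    rw [← ZMod.natCast_eq_zero_iff]
    push_cast
    rw [ZMod.natCast_zmod_val]
    have hk0 : (k : ZMod x) ≠ 0 := by
      rw [Ne, ZMod.natCast_eq_zero_iff]
      intro h
      have := Nat.le_of_dvd (by omega) h
      omega
    rw [mul_neg, mul_inv_cancel₀ hk0]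
    ring
  have h1 : (Icc 1 K).card ≤ (badClasses K x).card := by
    apply card_le_card_of_injOn (fun k : ℕ => (-(k : ZMod x)⁻¹).val)
    · intro k hk
      have hk' : k ∈ Icc 1 K := hk
      unfold badClasses
      simp only [coe_filter, mem_range, Set.mem_ofPred_eq]
      exact ⟨ZMod.val_lt _, k, hk', h0 k hk'⟩
    · intro k hk k' hk' h
      have h2 : (-(k : ZMod x)⁻¹) = (-(k' : ZMod x)⁻¹) := ZMod.val_injective x h
      have h3 : (k : ZMod x) = k' := inv_injective (neg_injective h2)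
      rw [ZMod.natCast_eq_natCast_iff] at h3
      have hk1 : k ∈ Icc 1 K := hk
      have hk2 : k' ∈ Icc 1 K := hk'
      rw [mem_Icc] at hk1 hk2
      exact Nat.ModEq.eq_of_lt_of_lt h3 (by omega) (by omega)
  simpa using h1

theorem avoid {N Q K n x : ℕ} {T : ℝ} (hQ : Q = Nat.sqrt N) (hK : (K : ℝ) ≤ T / 8)
    (hx : x ∈ topPrimes Q) (hKx : K < x) (hnN : n ≤ N) (hnQ : Q < n) (hnT : (N : ℝ) < n * T ^ 2)
    (hT : 0 < T)
    (hn : T * √n < M n) : n % x ∉ badClasses K x := by
  intro hb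
  unfold badClasses at hb
  rw [mem_filter] at hb
  obtain ⟨_, k, hk, hdvd⟩ := hb
  rw [mem_Icc] at hk
  unfold topPrimes at hx
  rw [mem_filter, mem_Ioc] at hx
  obtain ⟨⟨hx1, hx2⟩, hxp⟩ := hx
  have hx2' := hxp.two_le
  have h1 : x ∣ 1 + k * n := by
    have h2 : (1 + k * n) ≡ (1 + k * (n % x)) [MOD x] :=
      Nat.ModEq.add_left _ (Nat.ModEq.mul_left _ (Nat.mod_modEq n x).symm)
    exact (h2.dvd_iff dvd_rfl).2 hdvd
  obtain ⟨y, hy⟩ := h1
  have hy2 : 2 ≤ y := by
    by_contra h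
    have hy1 : y ≤ 1 := by omega
    have : x * y ≤ x * 1 := Nat.mul_le_mul_left _ hy1
    have : n ≤ k * n := Nat.le_mul_of_pos_left n (by omega)
    omega
  have hyn : y < n := by
    by_contra h
    push Not at h
    have h3 : x * n ≤ x * y := Nat.mul_le_mul_left _ h
    have h4 : (k + 1) * n ≤ x * n := Nat.mul_le_mul_right _ (by omega)
    have h5 : (k + 1) * n = k * n + n := by ring
    omega
  have hmod : (x * y) % n = 1 := by
    rw [← hy, Nat.add_mul_mod_self_right]
    exact Nat.mod_eq_of_lt (by omega)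
  have hM := M_le hx2' (by omega) hy2 hyn hmod
  have hMR : (M n : ℝ) ≤ max (x : ℝ) y := by exact_mod_cast hM
  have hN0 : (0 : ℝ) < n := by exact_mod_cast (show 0 < n by omega)
  have hNpos : (0 : ℝ) < N := lt_of_lt_of_le hN0 (by exact_mod_cast hnN)
  have hxle : (x : ℝ) ≤ T * √n := by
    have h6 : (x : ℝ) ^ 2 ≤ N := by
      have h7 : x * x ≤ N := by
        have := Nat.sqrt_le N
        rw [← hQ] at this
        exact le_trans (Nat.mul_le_mul hx2 hx2) this
      have : ((x * x : ℕ) : ℝ) ≤ N := by exact_mod_cast h7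
      push_cast at this
      nlinarith
    have h8 : (x : ℝ) ^ 2 ≤ (T * √n) ^ 2 := by
      rw [mul_pow, Real.sq_sqrt hN0.le]
      nlinarith
    exact le_of_sq_le_sq h8 (by positivity)
  have hyle : (y : ℝ) ≤ T * √n := by
    -- `√N < 4 x`
    have h9 : √(N : ℝ) ≤ 4 * x := by
      apply Real.sqrt_le_iff.2
      constructor
      · positivity
      · have h10 : N < (Q + 1) * (Q + 1) := by
          rw [hQ]
          exact Nat.lt_succ_sqrt N
        have h11 : Q + 1 ≤ 4 * x := by omega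
        have h12 : N ≤ (4 * x) * (4 * x) := le_trans h10.le (Nat.mul_le_mul h11 h11)
        have : (N : ℝ) ≤ ((4 * x) * (4 * x) : ℕ) := by exact_mod_cast h12
        push_cast at this
        nlinarith
    have hk1 : (1 : ℝ) ≤ k := by exact_mod_cast hk.1
    have hkK : (k : ℝ) ≤ T / 8 := le_trans (by exact_mod_cast hk.2) hK
    have h13 : (x : ℝ) * y = 1 + k * n := by exact_mod_cast hy.symm
    have h14 : √(n : ℝ) * √n = n := Real.mul_self_sqrt hN0.le
    have h15 : √(n : ℝ) ≤ √N := Real.sqrt_le_sqrt (by exact_mod_cast hnN)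
    have h16 : 0 < √(n : ℝ) := Real.sqrt_pos.2 hN0
    have h17 : √(N : ℝ) * y ≤ 8 * k * n := by
      have : √(N : ℝ) * y ≤ 4 * x * y := by gcongr
      have h18 : (1 : ℝ) ≤ k * n := by
        have : (1 : ℝ) ≤ n := by exact_mod_cast (show 1 ≤ n by omega)
        nlinarith
      nlinarith
    have h19 : √(N : ℝ) * y ≤ √(N : ℝ) * (8 * k * √n) := by
      calc √(N : ℝ) * y ≤ 8 * k * n := h17
        _ = (8 * k * √n) * √n := by rw [mul_assoc (8 * (k : ℝ)), h14]
        _ ≤ (8 * k * √n) * √N := by gcongr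
        _ = _ := by ring
    have h20 : (y : ℝ) ≤ 8 * k * √n := le_of_mul_le_mul_left h19 (lt_of_lt_of_le h16 h15)
    calc (y : ℝ) ≤ 8 * k * √n := h20
      _ ≤ T * √n := by
        gcongr
        linarith
  have : (M n : ℝ) ≤ T * √n := le_trans hMR (max_le hxle hyle)
  linarith

/-- There is a constant `C` such that for all `N ≥ 3` and all real `T ≥ 1`, at most
`C N log N / T` of the moduli `3 ≤ n ≤ N` satisfy `M n > T √n`. -/
theorem result : ∃ C : ℝ, ∀ N : ℕ, 3 ≤ N → ∀ T : ℝ, 1 ≤ T →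
    (((Icc 3 N).filter (fun n : ℕ => T * √n < M n)).card : ℝ) ≤ C * N * Real.log N / T := by
  obtain ⟨Q0, hQ02, hQ0⟩ := topPrimes_card
  refine ⟨642 + Q0, fun N hN T hT => ?_⟩
  have hTpos : (0 : ℝ) < T := by linarith
  have hNR : (3 : ℝ) ≤ N := by exact_mod_cast hN
  have hNpos : (0 : ℝ) < N := by linarith
  have hlog : 1 ≤ Real.log N := by
    rw [Real.le_log_iff_exp_le hNpos]
    have := Real.exp_one_lt_d9
    linarith
  set E := (Icc 3 N).filter (fun n : ℕ => T * √n < M n) with hE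
  have hEN : (E.card : ℝ) ≤ N := by
    have h1 : E.card ≤ (Icc 3 N).card := card_filter_le _ _
    rw [Nat.card_Icc] at h1
    have : E.card ≤ N := by omega
    exact_mod_cast this
  have hQ0R : (0 : ℝ) ≤ Q0 := Nat.cast_nonneg _
  -- the trivial case
  by_cases htriv : T ≤ 642 + Q0
  · refine hEN.trans ?_
    rw [le_div_iff₀ hTpos]
    have h2 : (N : ℝ) * T ≤ N * (642 + Q0) := by gcongr
    have h3 : (642 + (Q0 : ℝ)) * N * 1 ≤ (642 + Q0) * N * Real.log N := by gcongr
    nlinarith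
  push Not at htriv
  by_cases hbig : √(N : ℝ) ≤ T
  · have h4 : E = ∅ := by
      rw [hE, filter_eq_empty_iff]
      intro n hn
      rw [mem_Icc] at hn
      rw [not_lt]
      have h5 : (M n : ℝ) ≤ n := by exact_mod_cast (M_lt hn.1).le
      have h6 : √(n : ℝ) ≤ √N := Real.sqrt_le_sqrt (by exact_mod_cast hn.2)
      have h7 : √(n : ℝ) * √n = n := Real.mul_self_sqrt (Nat.cast_nonneg _)
      calc (M n : ℝ) ≤ √(n : ℝ) * √n := by rw [h7]; exact h5
        _ ≤ T * √n := by
          gcongr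
          exact h6.trans hbig
    rw [h4, card_empty]
    have : 0 ≤ Real.log N := by linarith
    simp only [Nat.cast_zero]
    positivity
  push Not at hbig
  obtain ⟨Q, hQ⟩ : ∃ Q, Q = Nat.sqrt N := ⟨_, rfl⟩
  have hQsq : Q ^ 2 ≤ N := by
    rw [hQ, sq]
    exact Nat.sqrt_le N
  have hQlt : N < (Q + 1) * (Q + 1) := by
    rw [hQ]
    exact Nat.lt_succ_sqrt N
  have hsN : √(N : ℝ) < Q + 1 := by
    rw [Real.sqrt_lt' (by positivity)]
    have : (N : ℝ) < ((Q + 1) * (Q + 1) : ℕ) := by exact_mod_cast hQlt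
    push_cast at this
    nlinarith
  have hQN : (Q : ℝ) ≤ √N := by
    apply Real.le_sqrt_of_sq_le
    exact_mod_cast hQsq
  have hQ0Q : Q0 ≤ Q := by
    have : (Q0 : ℝ) < Q + 1 := by linarith
    have h2 : Q0 < Q + 1 := by exact_mod_cast this
    omega
  have hQpos : (0 : ℝ) < Q := by exact_mod_cast (show 0 < Q by omega)
  obtain ⟨K, hKdef⟩ : ∃ K, K = ⌊T / 8⌋₊ := ⟨_, rfl⟩
  have hK8 : (K : ℝ) ≤ T / 8 := by
    rw [hKdef]
    exact Nat.floor_le (by positivity)
  have hK16 : T / 16 ≤ K := by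
    have h1 := Nat.lt_floor_add_one (T / 8)
    rw [← hKdef] at h1
    linarith
  have hKpos : (0 : ℝ) < K := lt_of_lt_of_le (by positivity) hK16
  have hKx : ∀ x ∈ topPrimes Q, K < x := by
    intro x hx
    unfold topPrimes at hx
    rw [mem_filter, mem_Ioc] at hx
    have h11 : Q + 1 ≤ 4 * x := by omega
    have h12 : ((Q : ℝ) + 1) ≤ 4 * x := by exact_mod_cast h11
    have h13 : (K : ℝ) < x := by
      have : (0 : ℝ) < x := by linarith
      linarith
    exact_mod_cast h13
  set E' := E.filter (fun n : ℕ => Q < n ∧ (N : ℝ) < n * T ^ 2) with hE'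
  have hE'sub : E' ⊆ Icc 1 N := by
    intro n hn
    rw [hE', mem_filter, hE, mem_filter, mem_Icc] at hn
    rw [mem_Icc]
    omega
  have hmain : (E'.card : ℝ) ≤ 640 * N * Real.log N / T := by
    have hls := large_sieve_primes (le_refl N) hQsq E' hE'sub (topPrimes Q) (by
      intro q hq
      unfold topPrimes at hq
      rw [mem_filter, mem_Ioc] at hq
      exact ⟨hq.2, hq.1.2⟩)
    have hlow : ∀ q ∈ topPrimes Q, (K : ℝ) / Q * (E'.card : ℝ) ^ 2 ≤ nonzeroMass E' q := by
      intro q hq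
      have hqp : q.Prime := by
        unfold topPrimes at hq
        exact (mem_filter.1 hq).2
      have hqQ : q ≤ Q := by
        unfold topPrimes at hq
        exact (mem_Ioc.1 (mem_filter.1 hq).1).2
      have h1 := mass_avoid E' hqp.pos (badClasses K q) (filter_subset _ _) (by
        intro n hn
        rw [hE', mem_filter, hE, mem_filter, mem_Icc] at hn
        exact avoid hQ hK8 hq (hKx q hq) hn.1.1.2 hn.2.1 hn.2.2 hTpos hn.1.2)
      refine le_trans ?_ h1
      have h2 : (K : ℝ) ≤ (badClasses K q).card := by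
        exact_mod_cast badClasses_card hqp (hKx q hq)
      have h3 : (0 : ℝ) < q := by exact_mod_cast hqp.pos
      have h4 : (q : ℝ) ≤ Q := by exact_mod_cast hqQ
      gcongr
    have hsum : ((topPrimes Q).card : ℝ) * ((K : ℝ) / Q * (E'.card : ℝ) ^ 2) ≤
        5 * N * E'.card := by
      refine le_trans ?_ hls
      rw [← nsmul_eq_mul]
      exact card_nsmul_le_sum _ _ _ hlow
    have hP := hQ0 Q hQ0Q
    have hlogQ : Real.log Q ≤ Real.log N := by
      apply Real.log_le_log hQpos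
      have : Q ≤ N := by nlinarith
      exact_mod_cast this
    have hP2 : (Q : ℝ) ≤ 8 * ((topPrimes Q).card * Real.log N) := by
      have : ((topPrimes Q).card : ℝ) * Real.log Q ≤ (topPrimes Q).card * Real.log N := by gcongr
      linarith
    rcases (Nat.cast_nonneg E'.card : (0 : ℝ) ≤ E'.card).eq_or_lt with h0 | h0
    · rw [← h0]
      positivity
    · have h5 : ((topPrimes Q).card : ℝ) * ((K : ℝ) / Q) * E'.card ≤ 5 * N := by
        have : (((topPrimes Q).card : ℝ) * ((K : ℝ) / Q) * E'.card) * E'.card ≤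
            (5 * N) * E'.card := by
          calc _ = ((topPrimes Q).card : ℝ) * ((K : ℝ) / Q * (E'.card : ℝ) ^ 2) := by ring
            _ ≤ _ := hsum
        exact le_of_mul_le_mul_right this h0
      have h6 : (K : ℝ) * E'.card ≤ 40 * N * Real.log N := by
        have h7 : ((topPrimes Q).card : ℝ) * K * E'.card ≤ 5 * N * Q := by
          have h8 : ((topPrimes Q).card : ℝ) * ((K : ℝ) / Q) * E'.card * Q ≤ 5 * N * Q := by
            gcongr
          have h9 : ((topPrimes Q).card : ℝ) * ((K : ℝ) / Q) * E'.card * Q =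
              ((topPrimes Q).card : ℝ) * K * E'.card := by
            field_simp
          linarith
        have h10 : (Q : ℝ) * (K * E'.card) ≤ Q * (40 * N * Real.log N) := by
          calc (Q : ℝ) * (K * E'.card) ≤
                (8 * ((topPrimes Q).card * Real.log N)) * (K * E'.card) := by gcongr
            _ = 8 * Real.log N * (((topPrimes Q).card : ℝ) * K * E'.card) := by ring
            _ ≤ 8 * Real.log N * (5 * N * Q) := by gcongr
            _ = _ := by ring
        exact le_of_mul_le_mul_left h10 hQpos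
      rw [le_div_iff₀ hTpos]
      have h11 : T * E'.card ≤ 16 * (K * E'.card) := by
        have : T ≤ 16 * K := by linarith
        calc T * E'.card ≤ (16 * K) * E'.card := by gcongr
          _ = _ := by ring
      linarith
  -- the small moduli
  have hrest : ((E.filter (fun n : ℕ => ¬ (Q < n ∧ (N : ℝ) < n * T ^ 2))).card : ℝ) ≤
      2 * N / T := by
    have hsub : E.filter (fun n : ℕ => ¬ (Q < n ∧ (N : ℝ) < n * T ^ 2)) ⊆
        Icc 1 Q ∪ Icc 1 ⌊(N : ℝ) / T ^ 2⌋₊ := by
      intro n hn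
      rw [mem_filter, hE, mem_filter, mem_Icc] at hn
      rw [mem_union, mem_Icc, mem_Icc]
      by_cases h1 : Q < n
      · right
        have h2 : ¬ ((N : ℝ) < n * T ^ 2) := fun h => hn.2 ⟨h1, h⟩
        push Not at h2
        refine ⟨by omega, ?_⟩
        apply Nat.le_floor
        rw [le_div_iff₀ (by positivity)]
        exact h2
      · left
        omega
    have hc := card_le_card hsub
    have hc2 : (E.filter (fun n : ℕ => ¬ (Q < n ∧ (N : ℝ) < n * T ^ 2))).card ≤
        Q + ⌊(N : ℝ) / T ^ 2⌋₊ := by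
      refine hc.trans ((card_union_le _ _).trans ?_)
      simp
    have hc3 : ((E.filter (fun n : ℕ => ¬ (Q < n ∧ (N : ℝ) < n * T ^ 2))).card : ℝ) ≤
        Q + (N : ℝ) / T ^ 2 := by
      have h3 : (⌊(N : ℝ) / T ^ 2⌋₊ : ℝ) ≤ (N : ℝ) / T ^ 2 := Nat.floor_le (by positivity)
      have h4 : ((E.filter (fun n : ℕ => ¬ (Q < n ∧ (N : ℝ) < n * T ^ 2))).card : ℝ) ≤
          Q + (⌊(N : ℝ) / T ^ 2⌋₊ : ℝ) := by exact_mod_cast hc2
      linarith
    have h5 : (Q : ℝ) ≤ N / T := by
      rw [le_div_iff₀ hTpos]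
      have h6 : √(N : ℝ) * √N = N := Real.mul_self_sqrt hNpos.le
      calc (Q : ℝ) * T ≤ √N * √N := by gcongr
        _ = N := h6
    have h7 : (N : ℝ) / T ^ 2 ≤ N / T := by
      apply div_le_div_of_nonneg_left hNpos.le hTpos
      nlinarith
    calc _ ≤ (Q : ℝ) + N / T ^ 2 := hc3
      _ ≤ N / T + N / T := by gcongr
      _ = 2 * N / T := by ring
  have hsplit : (E.card : ℝ) = E'.card +
      (E.filter (fun n : ℕ => ¬ (Q < n ∧ (N : ℝ) < n * T ^ 2))).card := by
    have := card_filter_add_card_filter_not (s := E) (fun n : ℕ => Q < n ∧ (N : ℝ) < n * T ^ 2)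
    rw [← this]
    push_cast
    rfl
  have hfin : 2 * (N : ℝ) / T ≤ 2 * N * Real.log N / T := by
    have h1 : 2 * (N : ℝ) ≤ 2 * N * Real.log N := by nlinarith
    exact div_le_div_of_nonneg_right h1 hTpos.le
  calc (E.card : ℝ) ≤ 640 * N * Real.log N / T + 2 * N * Real.log N / T := by
        rw [hsplit]
        linarith
    _ = 642 * N * Real.log N / T := by ring
    _ ≤ (642 + Q0) * N * Real.log N / T := by
      gcongr
      linarith

end Pool.Agent.Results.MP_13d5da_nt.AlmostAllModuli
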